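import Mathlib

/-!
# Greedy maximum-independent-set colouring: the abstract structure
-/

namespace Pool.Agent.R551.IG

open Finset

/-- `GreedyRun G U k`: some run of greedy maximum-independent-set colouring of the subgraph induced
by `U` uses exactly `k` colours. -/
inductive GreedyRun {R : Type} [DecidableEq R] (G : SimpleGraph R) : Finset R → ℕ → Prop
  | done : GreedyRun G ∅ 0
  | round {U I : Finset R} {k : ℕ} (hU : U.Nonempty) (hI : I ⊆ U) (hind : G.IsIndepSet (I : Set R))
      (hmax : ∀ J : Finset R, J ⊆ U → G.IsIndepSet (J : Set R) → J.card ≤ I.card)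
      (hrest : GreedyRun G (U \ I) k) : GreedyRun G U (k + 1)

/-- A forest order: a preorder in which the elements above a given element are comparable. -/
structure ForestOrder {N : Type} (le : N → N → Prop) : Prop where
  refl : ∀ a, le a a
  trans : ∀ a b c, le a b → le b c → le a c
  forest : ∀ a b c, le a b → le a c → le b c ∨ le c b

/-- Comparability. -/
def Cmp {N : Type} (le : N → N → Prop) (a b : N) : Prop := le a b ∨ le b a

/-- The order of arcs: `(true, a)` is the arc from `a` towards the root, `(false, a)` is the arc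
from above to `a`. -/
def arcLe {N : Type} (le : N → N → Prop) : Bool × N → Bool × N → Prop
  | (true, a), (true, b) => le a b
  | (true, a), (false, b) => ¬ Cmp le a b
  | (false, a), (false, b) => le b a
  | (false, _), (true, _) => False

/-- An abstract system of requests. -/
structure Sys {N R : Type} (le : N → N → Prop) (G : SimpleGraph R) (e f : R → Bool × N) : Prop where
  fo : ForestOrder le
  path : ∀ r, arcLe le (e r) (f r)
  adj : ∀ r r', r ≠ r' → (G.Adj r r' ↔ arcLe le (e r) (f r') ∨ arcLe le (e r') (f r))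

variable {N R : Type} {le : N → N → Prop} {G : SimpleGraph R} {e f : R → Bool × N}

theorem Cmp.symm {a b : N} (h : Cmp le a b) : Cmp le b a := Or.symm h

/-- The reversed arc. -/
def rev (x : Bool × N) : Bool × N := (!x.1, x.2)

theorem arcLe_rev (x y : Bool × N) : arcLe le (rev y) (rev x) ↔ arcLe le x y := by
  obtain ⟨dx, a⟩ := x
  obtain ⟨dy, b⟩ := y
  cases dx <;> cases dy <;> simp [rev, arcLe, Cmp]
  tauto

theorem Sys.reverse (S : Sys le G e f) : Sys le G (fun r => rev (f r)) (fun r => rev (e r)) where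
  fo := S.fo
  path r := (arcLe_rev _ _).2 (S.path r)
  adj r r' h := by
    rw [S.adj r r' h, arcLe_rev, arcLe_rev]
    exact or_comm

/-- Requests going up. -/
def UU (e f : R → Bool × N) (r : R) : Prop := (e r).1 = true ∧ (f r).1 = true
/-- Requests going down. -/
def DD (e f : R → Bool × N) (r : R) : Prop := (e r).1 = false ∧ (f r).1 = false
/-- Requests that turn. -/
def UD (e f : R → Bool × N) (r : R) : Prop := (e r).1 = true ∧ (f r).1 = false

theorem Sys.cases (S : Sys le G e f) (r : R) : UU e f r ∨ DD e f r ∨ UD e f r := by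
  have h := S.path r
  unfold UU DD UD
  rcases he : e r with ⟨de, a⟩
  rcases hf : f r with ⟨df, b⟩
  rw [he, hf] at h
  cases de <;> cases df <;> simp [arcLe] at h ⊢

theorem Sys.uu (S : Sys le G e f) {r : R} (h : UU e f r) : le (e r).2 (f r).2 := by
  have h' := S.path r
  rcases he : e r with ⟨de, a⟩
  rcases hf : f r with ⟨df, b⟩
  rw [he, hf] at h'
  unfold UU at h
  rw [he, hf] at h
  obtain ⟨rfl, rfl⟩ := h
  exact h'

theorem Sys.dd (S : Sys le G e f) {r : R} (h : DD e f r) : le (f r).2 (e r).2 := by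
  have h' := S.path r
  rcases he : e r with ⟨de, a⟩
  rcases hf : f r with ⟨df, b⟩
  rw [he, hf] at h'
  unfold DD at h
  rw [he, hf] at h
  obtain ⟨rfl, rfl⟩ := h
  exact h'

theorem Sys.ud (S : Sys le G e f) {r : R} (h : UD e f r) : ¬ Cmp le (e r).2 (f r).2 := by
  have h' := S.path r
  rcases he : e r with ⟨de, a⟩
  rcases hf : f r with ⟨df, b⟩
  rw [he, hf] at h'
  unfold UD at h
  rw [he, hf] at h
  obtain ⟨rfl, rfl⟩ := h
  exact h'

/-- Nonadjacent requests, first up, second down at its end. -/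
theorem Sys.cmp_of_nadj (S : Sys le G e f) {r r' : R} (hne : r ≠ r') (hn : ¬ G.Adj r r')
    (h : (e r).1 = true) (h' : (f r').1 = false) : Cmp le (e r).2 (f r').2 := by
  rw [S.adj r r' hne, not_or] at hn
  have h1 := hn.1
  rcases he : e r with ⟨de, a⟩
  rcases hf : f r' with ⟨df, b⟩
  rw [he, hf] at h1
  rw [he] at h
  rw [hf] at h'
  simp only at h h'
  subst h
  subst h'
  simpa [arcLe] using h1

theorem Sys.adj_of_up (S : Sys le G e f) {r r' : R} (hne : r ≠ r') (h : (e r).1 = true)
    (h' : (f r').1 = true) (hle : le (e r).2 (f r').2) : G.Adj r r' := by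
  rw [S.adj r r' hne]
  left
  rcases he : e r with ⟨de, a⟩
  rcases hf : f r' with ⟨df, b⟩
  rw [he, hf] at hle
  rw [he] at h
  rw [hf] at h'
  simp only at h h'
  subst h
  subst h'
  exact hle

theorem Sys.adj_of_down (S : Sys le G e f) {r r' : R} (hne : r ≠ r') (h : (e r).1 = false)
    (h' : (f r').1 = false) (hle : le (f r').2 (e r).2) : G.Adj r r' := by
  rw [S.adj r r' hne]
  left
  rcases he : e r with ⟨de, a⟩
  rcases hf : f r' with ⟨df, b⟩
  rw [hf, he] at hle
  rw [he] at h
  rw [hf] at h'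
  simp only at h h'
  subst h
  subst h'
  exact hle

/-- Two requests that go up are adjacent iff their last arcs are comparable. -/
theorem Sys.uu_adj (S : Sys le G e f) {r r' : R} (hne : r ≠ r') (h : UU e f r) (h' : UU e f r') :
    G.Adj r r' ↔ Cmp le (f r).2 (f r').2 := by
  constructor
  · intro hadj
    by_contra hc
    rw [S.adj r r' hne] at hadj
    rcases he : e r with ⟨de, a⟩
    rcases hf : f r with ⟨df, b⟩
    rcases he' : e r' with ⟨de', a'⟩
    rcases hf' : f r' with ⟨df', b'⟩
    have g1 := S.uu h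
    have g2 := S.uu h'
    unfold UU at h h'
    rw [he, hf] at h g1
    rw [he', hf'] at h' g2
    rw [hf, hf'] at hc
    rw [he, hf, he', hf'] at hadj
    obtain ⟨rfl, rfl⟩ := h
    obtain ⟨rfl, rfl⟩ := h'
    simp only [arcLe] at hadj g1 g2 hc
    rcases hadj with hl | hl
    · exact hc (S.fo.forest _ _ _ g1 hl)
    · exact hc (S.fo.forest _ _ _ g2 hl).symm
  · rintro (hl | hl)
    · exact S.adj_of_up hne h.1 h'.2 (S.fo.trans _ _ _ (S.uu h) hl)
    · exact (S.adj_of_up hne.symm h'.1 h.2 (S.fo.trans _ _ _ (S.uu h') hl)).symm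

/-- Two requests that go down are adjacent iff their first arcs are comparable. -/
theorem Sys.dd_adj (S : Sys le G e f) {r r' : R} (hne : r ≠ r') (h : DD e f r) (h' : DD e f r') :
    G.Adj r r' ↔ Cmp le (e r).2 (e r').2 := by
  have := S.reverse.uu_adj hne (r := r) (r' := r') (by
    unfold UU rev DD at *
    simp [h.1, h.2]) (by
    unfold UU rev DD at *
    simp [h'.1, h'.2])
  simpa [rev] using this

/-- Turning requests with comparable last arcs are adjacent. -/
theorem Sys.ud_adj (S : Sys le G e f) {r r' : R} (hne : r ≠ r') (h : UD e f r) (h' : UD e f r')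
    (hc : Cmp le (f r).2 (f r').2) : G.Adj r r' := by
  have key : ∀ {r r' : R}, r ≠ r' → UD e f r → UD e f r' → le (f r).2 (f r').2 →
      G.Adj r r' := by
    intro r r' hne h h' hl
    by_contra hn
    have h1 := S.cmp_of_nadj hne.symm (fun h => hn h.symm) h'.1 h.2
    rcases h1 with h1 | h1
    · exact S.ud h' (Or.inl (S.fo.trans _ _ _ h1 hl))
    · exact S.ud h' (S.fo.forest _ _ _ h1 hl)
  rcases hc with hc | hc
  · exact key hne h h' hc
  · exact (key hne.symm h' h hc).symm

/-- Turning requests with comparable first arcs are adjacent. -/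
theorem Sys.ud_adj' (S : Sys le G e f) {r r' : R} (hne : r ≠ r') (h : UD e f r) (h' : UD e f r')
    (hc : Cmp le (e r).2 (e r').2) : G.Adj r r' := by
  refine S.reverse.ud_adj hne (r := r) (r' := r') ?_ ?_ ?_
  · unfold UD rev at *
    simp [h.1, h.2]
  · unfold UD rev at *
    simp [h'.1, h'.2]
  · simpa [rev] using hc

/-- Nonadjacent turning requests: the common comparability. -/
theorem Sys.three_ud (S : Sys le G e f) {r₁ r₂ r₃ : R} (h₁ : UD e f r₁) (h₂ : UD e f r₂)
    (h₃ : UD e f r₃) (h12 : r₁ ≠ r₂) (h13 : r₁ ≠ r₃) (h23 : r₂ ≠ r₃) (n12 : ¬ G.Adj r₁ r₂)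
    (n13 : ¬ G.Adj r₁ r₃) (n23 : ¬ G.Adj r₂ r₃) : False := by
  -- the arcs at the ends are pairwise incomparable
  have b12 : ¬ Cmp le (f r₁).2 (f r₂).2 := fun h => n12 (S.ud_adj h12 h₁ h₂ h)
  have b13 : ¬ Cmp le (f r₁).2 (f r₃).2 := fun h => n13 (S.ud_adj h13 h₁ h₃ h)
  have b23 : ¬ Cmp le (f r₂).2 (f r₃).2 := fun h => n23 (S.ud_adj h23 h₂ h₃ h)
  have a12 : ¬ Cmp le (e r₁).2 (e r₂).2 := fun h => n12 (S.ud_adj' h12 h₁ h₂ h)
  have key : ∀ a b b' : N, Cmp le a b → Cmp le a b' → ¬ Cmp le b b' → le b a ∧ le b' a := by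
    intro a b b' hb hb' hn
    rcases hb with hb | hb <;> rcases hb' with hb' | hb'
    · exact absurd (S.fo.forest _ _ _ hb hb') hn
    · exact absurd (Or.inr (S.fo.trans _ _ _ hb' hb)) hn
    · exact absurd (Or.inl (S.fo.trans _ _ _ hb hb')) hn
    · exact ⟨hb, hb'⟩
  have k1 := key _ _ _ (S.cmp_of_nadj h12 n12 h₁.1 h₂.2) (S.cmp_of_nadj h13 n13 h₁.1 h₃.2) b23
  have k2 := key _ _ _ (S.cmp_of_nadj h12.symm (fun h => n12 h.symm) h₂.1 h₁.2)
    (S.cmp_of_nadj h23 n23 h₂.1 h₃.2) b13
  exact a12 (S.fo.forest _ _ _ k1.2 k2.2)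

/-- Nonadjacent requests that go up have incomparable first arcs. -/
theorem Sys.uu_first (S : Sys le G e f) {r r' : R} (hne : r ≠ r') (h : UU e f r) (h' : UU e f r')
    (hn : ¬ G.Adj r r') : ¬ Cmp le (e r).2 (e r').2 := by
  have hb : ¬ Cmp le (f r).2 (f r').2 := fun hc => hn ((S.uu_adj hne h h').2 hc)
  rintro (hl | hl)
  · exact hb (S.fo.forest _ _ _ (S.uu h) (S.fo.trans _ _ _ hl (S.uu h')))
  · exact hb (S.fo.forest _ _ _ (S.fo.trans _ _ _ hl (S.uu h)) (S.uu h'))

/-- Nonadjacent requests that go down have incomparable last arcs. -/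
theorem Sys.dd_last (S : Sys le G e f) {r r' : R} (hne : r ≠ r') (h : DD e f r) (h' : DD e f r')
    (hn : ¬ G.Adj r r') : ¬ Cmp le (f r).2 (f r').2 := by
  have := S.reverse.uu_first hne (r := r) (r' := r') (by
    unfold UU rev DD at *
    simp [h.1, h.2]) (by
    unfold UU rev DD at *
    simp [h'.1, h'.2]) hn
  simpa [rev] using this

/-- Two requests that go up and two that go down are not independent. -/
theorem Sys.two_two (S : Sys le G e f) {p p' q q' : R} (hp : UU e f p) (hp' : UU e f p')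
    (hq : DD e f q) (hq' : DD e f q') (hpp : p ≠ p') (hqq : q ≠ q') (npp : ¬ G.Adj p p')
    (nqq : ¬ G.Adj q q') (n1 : ¬ G.Adj p q) (n2 : ¬ G.Adj p q') (n3 : ¬ G.Adj p' q)
    (n4 : ¬ G.Adj p' q') : False := by
  have ha := S.uu_first hpp hp hp' npp
  have hb := S.dd_last hqq hq hq' nqq
  have hne : ∀ {p q : R}, UU e f p → DD e f q → p ≠ q := by
    rintro p q hp hq rfl
    have := hp.1
    rw [hq.1] at this
    exact absurd this (by decide)
  have key : ∀ a b b' : N, Cmp le a b → Cmp le a b' → ¬ Cmp le b b' → le b a ∧ le b' a := by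
    intro a b b' hb hb' hn
    rcases hb with hb | hb <;> rcases hb' with hb' | hb'
    · exact absurd (S.fo.forest _ _ _ hb hb') hn
    · exact absurd (Or.inr (S.fo.trans _ _ _ hb' hb)) hn
    · exact absurd (Or.inl (S.fo.trans _ _ _ hb hb')) hn
    · exact ⟨hb, hb'⟩
  have k1 := key _ _ _ (S.cmp_of_nadj (hne hp hq) n1 hp.1 hq.2)
    (S.cmp_of_nadj (hne hp hq') n2 hp.1 hq'.2) hb
  have k2 := key _ _ _ (S.cmp_of_nadj (hne hp' hq) n3 hp'.1 hq.2)
    (S.cmp_of_nadj (hne hp' hq') n4 hp'.1 hq'.2) hb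
  exact ha (S.fo.forest _ _ _ k1.1 k2.1)

/-- A member of an independent set that does not go up lies above all members that go up, if there
are at least two of these. -/
theorem Sys.above (S : Sys le G e f) {p p' q : R} (hp : UU e f p) (hp' : UU e f p')
    (hq : (f q).1 = false) (hpp : p ≠ p') (npp : ¬ G.Adj p p') (n1 : ¬ G.Adj p q)
    (n3 : ¬ G.Adj p' q) : le (f p).2 (f q).2 := by
  have ha := S.uu_first hpp hp hp' npp
  have hb : ¬ Cmp le (f p).2 (f p').2 := fun hc => npp ((S.uu_adj hpp hp hp').2 hc)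
  have hne : ∀ {p : R}, UU e f p → p ≠ q := by
    rintro p hp rfl
    have := hp.2
    rw [hq] at this
    exact absurd this (by decide)
  have c1 := S.cmp_of_nadj (hne hp) n1 hp.1 hq
  have c2 := S.cmp_of_nadj (hne hp') n3 hp'.1 hq
  have key : ∀ a a' b : N, Cmp le a b → Cmp le a' b → ¬ Cmp le a a' → le a b ∧ le a' b := by
    intro a a' b h h' hn
    rcases h with h | h <;> rcases h' with h' | h'
    · exact ⟨h, h'⟩
    · exact absurd (Or.inl (S.fo.trans _ _ _ h h')) hn
    · exact absurd (Or.inr (S.fo.trans _ _ _ h' h)) hn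
    · exact absurd (S.fo.forest _ _ _ h h') hn
  obtain ⟨k1, k2⟩ := key _ _ _ c1 c2 ha
  rcases S.fo.forest _ _ _ (S.uu hp) k1 with h | h
  · exact h
  · exact absurd (S.fo.forest _ _ _ (S.fo.trans _ _ _ k2 h) (S.uu hp')) hb

end Pool.Agent.R551.IG
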