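import Pool.Agent.R551.IG.Abs

/-!
# The number of rounds of the greedy algorithm
-/

namespace Pool.Agent.R551.IG

open Finset
open scoped Classical

variable {N R : Type} {le : N → N → Prop} {G : SimpleGraph R} {e f : R → Bool × N}

/-- The rounds of the greedy algorithm: `I j` is the colour class of round `j` and `F j` is the set
of uncoloured vertices before it. -/
structure Rounds (G : SimpleGraph R) (k : ℕ) (I F : ℕ → Finset R) : Prop where
  sub : ∀ j < k, I j ⊆ F j
  ind : ∀ j < k, G.IsIndepSet (I j : Set R)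
  mx : ∀ j < k, ∀ J : Finset R, J ⊆ F j → G.IsIndepSet (J : Set R) → J.card ≤ (I j).card
  ne : ∀ j < k, (I j).Nonempty
  next : ∀ j < k, F (j + 1) ⊆ F j \ I j

theorem exists_rounds {inst : DecidableEq R} {U : Finset R} {k : ℕ}
    (h : @GreedyRun R inst G U k) : ∃ I F : ℕ → Finset R, F 0 = U ∧ Rounds G k I F := by
  obtain rfl : inst = fun a b => Classical.propDecidable (a = b) := Subsingleton.elim _ _
  induction h with
  | done =>
    exact ⟨fun _ => ∅, fun _ => ∅, rfl, ⟨fun _ h => absurd h (Nat.not_lt_zero _),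
      fun _ h => absurd h (Nat.not_lt_zero _), fun _ h => absurd h (Nat.not_lt_zero _),
      fun _ h => absurd h (Nat.not_lt_zero _), fun _ h => absurd h (Nat.not_lt_zero _)⟩⟩
  | @round U I k hU hI hind hmax hrest ih =>
    obtain ⟨I', F', h0, hR⟩ := ih
    have hne : I.Nonempty := by
      obtain ⟨u, hu⟩ := hU
      rw [← card_pos]
      have := hmax {u} (by simpa using hu) (by simp)
      rw [card_singleton] at this
      omega
    refine ⟨fun j => if j = 0 then I else I' (j - 1), fun j => if j = 0 then U else F' (j - 1),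
      by simp, ⟨?_, ?_, ?_, ?_, ?_⟩⟩
    · intro j hj
      by_cases h : j = 0
      · simp only [h, if_true]
        exact hI
      · simp only [h, if_false]
        exact hR.sub _ (by omega)
    · intro j hj
      by_cases h : j = 0
      · simp only [h, if_true]
        exact hind
      · simp only [h, if_false]
        exact hR.ind _ (by omega)
    · intro j hj
      by_cases h : j = 0
      · simp only [h, if_true]
        exact hmax
      · simp only [h, if_false]
        exact hR.mx _ (by omega)
    · intro j hj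
      by_cases h : j = 0
      · simp only [h, if_true]
        exact hne
      · simp only [h, if_false]
        exact hR.ne _ (by omega)
    · intro j hj
      by_cases h : j = 0
      · subst h
        simp only [if_true, zero_add, one_ne_zero, if_false, Nat.sub_self, h0]
        intro x hx
        rw [mem_sdiff] at hx ⊢
        exact hx
      · simp only [h, if_false, Nat.succ_ne_zero, Nat.add_sub_cancel]
        have h1 := hR.next (j - 1) (by omega)
        rwa [Nat.sub_add_cancel (by omega)] at h1

variable {k : ℕ} {I F : ℕ → Finset R}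

theorem Rounds.later (hR : Rounds G k I F) {i j : ℕ} (hij : i < j) (hj : j ≤ k) :
    F j ⊆ F i \ I i := by
  induction j with
  | zero => omega
  | succ j ih =>
    rcases Nat.lt_or_ge i j with h | h
    · exact ((hR.next j (by omega)).trans sdiff_subset).trans (ih h (by omega))
    · obtain rfl : i = j := by omega
      exact hR.next i (by omega)

/-- Representatives which are pairwise adjacent. -/
theorem card_le_of_clique {c : ℕ} (κ : G.Coloring (Fin c)) (S : Finset ℕ) (y : ℕ → R)
    (h : ∀ i ∈ S, ∀ j ∈ S, i ≠ j → G.Adj (y i) (y j)) : S.card ≤ c := by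
  have : (S.image fun i => κ (y i)).card = S.card := by
    refine card_image_of_injOn ?_
    intro i hi j hj heq
    by_contra hne
    exact κ.valid (h i hi j hj hne) heq
  rw [← this]
  refine (card_le_univ _).trans ?_
  rw [Fintype.card_fin]

/-- The rounds with small colour classes. -/
theorem small_bound (hR : Rounds G k I F) {c t : ℕ} (κ : G.Coloring (Fin c)) (S : Finset ℕ)
    (hS : ∀ j ∈ S, j < k ∧ (I j).card ≤ t) : S.card ≤ t * c := by
  rcases S.eq_empty_or_nonempty with rfl | hne
  · simp
  set j₀ := S.min' hne with hj₀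
  have hj₀S : j₀ ∈ S := S.min'_mem hne
  have hex : ∀ j, ∃ y, j < k → y ∈ I j := by
    intro j
    by_cases h : j < k
    · obtain ⟨y, hy⟩ := hR.ne j h
      exact ⟨y, fun _ => hy⟩
    · obtain ⟨y, hy⟩ := hR.ne j₀ (hS _ hj₀S).1
      exact ⟨y, fun h' => absurd h' h⟩
  choose y hy using hex
  have hinj : Set.InjOn y S := by
    intro i hi j hj heq
    by_contra hij
    rcases Nat.lt_or_gt_of_ne hij with h | h
    · have h1 := hR.later h (hS j hj).1.le (hR.sub j (hS j hj).1 (hy j (hS j hj).1))
      rw [mem_sdiff] at h1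
      exact h1.2 (heq ▸ hy i (hS i hi).1)
    · have h1 := hR.later h (hS i hi).1.le (hR.sub i (hS i hi).1 (hy i (hS i hi).1))
      rw [mem_sdiff] at h1
      exact h1.2 (heq ▸ hy j (hS j hj).1)
  have hsub : ∀ j ∈ S, y j ∈ F j₀ := by
    intro j hj
    rcases Nat.lt_or_ge j₀ j with h | h
    · exact (mem_sdiff.1 (hR.later h (hS j hj).1.le (hR.sub j (hS j hj).1 (hy j (hS j hj).1)))).1
    · have : j = j₀ := le_antisymm h (S.min'_le j hj)
      rw [this]
      exact hR.sub _ (hS _ hj₀S).1 (hy _ (hS _ hj₀S).1)
  have hX : (S.image y).card = S.card := card_image_of_injOn hinj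
  rw [← hX, card_eq_sum_card_fiberwise (f := fun r => κ r) (t := univ)
    (fun _ _ => mem_coe.2 (mem_univ _))]
  calc ∑ a : Fin c, ((S.image y).filter fun r => κ r = a).card ≤ ∑ _a : Fin c, t := by
        refine sum_le_sum fun a _ => ?_
        refine le_trans (hR.mx j₀ (hS _ hj₀S).1 _ ?_ ?_) (hS _ hj₀S).2
        · intro r hr
          rw [mem_filter, mem_image] at hr
          obtain ⟨⟨j, hj, rfl⟩, _⟩ := hr
          exact hsub j hj
        · intro r hr r' hr' _ hadj
          rw [coe_filter] at hr hr'
          exact κ.valid hadj (hr.2.trans hr'.2.symm)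
    _ = t * c := by
        rw [sum_const, card_univ, Fintype.card_fin, smul_eq_mul, mul_comm]

/-- Pairwise incomparable. -/
def Anti (le : N → N → Prop) (b : R → N) (J : Finset R) : Prop :=
  ∀ r ∈ J, ∀ r' ∈ J, r ≠ r' → ¬ Cmp le (b r) (b r')

/-- Successive maximum antichains of a forest order contain the elements of a chain. -/
theorem chain (hR : Nonempty R) (fo : ForestOrder le) (b : R → N) (n : ℕ) : ∀ (S : Finset ℕ) (F I : ℕ → Finset R),
    S.card = n → (∀ i ∈ S, I i ⊆ F i) → (∀ i ∈ S, (I i).Nonempty) → (∀ i ∈ S, Anti le b (I i)) →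
    (∀ i ∈ S, ∀ J ⊆ F i, Anti le b J → J.card ≤ (I i).card) →
    (∀ i ∈ S, ∀ j ∈ S, i < j → F j ⊆ F i \ I i) →
    ∃ y : ℕ → R, (∀ i ∈ S, y i ∈ I i) ∧
      ∀ i ∈ S, ∀ j ∈ S, i ≠ j → Cmp le (b (y i)) (b (y j)) := by
  induction n using Nat.strong_induction_on with
  | _ n ih =>
    intro S F I hn hsub hne hanti hmax hnext
    rcases S.eq_empty_or_nonempty with rfl | hSne
    · obtain ⟨r⟩ := hR
      exact ⟨fun _ => r, by simp, by simp⟩
    set s := S.max' hSne with hs
    have hsS : s ∈ S := S.max'_mem hSne
    obtain ⟨x, hx⟩ := hne s hsS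
    have hxF : ∀ i ∈ S, i ≠ s → x ∈ F i ∧ x ∉ I i := by
      intro i hi his
      have hlt : i < s := lt_of_le_of_ne (S.le_max' i hi) his
      have := hnext i hi s hsS hlt (hsub s hsS hx)
      exact mem_sdiff.1 this
    set B := (S.erase s).filter (fun i => ∀ y ∈ I i, ¬ le (b x) (b y)) with hB
    have hBS : ∀ i ∈ B, i ∈ S ∧ i ≠ s := by
      intro i hi
      rw [hB, mem_filter, mem_erase] at hi
      exact ⟨hi.1.2, hi.1.1⟩
    have hBcard : B.card < n := by
      rw [← hn]
      refine lt_of_le_of_lt (card_filter_le _ _) ?_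
      rw [card_erase_of_mem hsS]
      have := card_pos.2 hSne
      omega
    -- the parts below `x`
    obtain ⟨y, hy1, hy2⟩ := ih B.card hBcard B
      (fun i => (F i).filter fun z => le (b z) (b x))
      (fun i => (I i).filter fun z => le (b z) (b x)) rfl
      (fun i hi => by
        intro z hz
        rw [mem_filter] at hz ⊢
        exact ⟨hsub i (hBS i hi).1 hz.1, hz.2⟩)
      (fun i hi => by
        by_contra hemp
        rw [not_nonempty_iff_eq_empty] at hemp
        have hxi := hxF i (hBS i hi).1 (hBS i hi).2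
        have hno : ∀ z ∈ I i, ¬ Cmp le (b z) (b x) := by
          rintro z hz (h | h)
          · have : z ∈ (I i).filter fun z => le (b z) (b x) := mem_filter.2 ⟨hz, h⟩
            rw [hemp] at this
            simp at this
          · exact (mem_filter.1 hi).2 z hz h
        have h1 : Anti le b (insert x (I i)) := by
          intro r hr r' hr' hrr
          rw [mem_insert] at hr hr'
          rcases hr with rfl | hr <;> rcases hr' with rfl | hr'
          · exact absurd rfl hrr
          · exact fun h => hno r' hr' h.symm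
          · exact hno r hr
          · exact hanti i (hBS i hi).1 r hr r' hr' hrr
        have h2 := hmax i (hBS i hi).1 (insert x (I i)) (by
          intro z hz
          rw [mem_insert] at hz
          rcases hz with rfl | hz
          · exact hxi.1
          · exact hsub i (hBS i hi).1 hz) h1
        rw [card_insert_of_notMem hxi.2] at h2
        omega)
      (fun i hi => by
        intro r hr r' hr' hrr
        exact hanti i (hBS i hi).1 r (mem_filter.1 hr).1 r' (mem_filter.1 hr').1 hrr)
      (fun i hi J hJ hJa => by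
        -- replace the part of `I i` below `x` by `J`
        have hdisj : Disjoint ((I i).filter fun z => ¬ le (b z) (b x)) J := by
          rw [disjoint_left]
          intro z hz hzJ
          exact (mem_filter.1 hz).2 (mem_filter.1 (hJ hzJ)).2
        have h1 : Anti le b (((I i).filter fun z => ¬ le (b z) (b x)) ∪ J) := by
          have hcross : ∀ z ∈ ((I i).filter fun z => ¬ le (b z) (b x)), ∀ w ∈ J,
              ¬ Cmp le (b z) (b w) := by
            intro z hz w hw hc
            rw [mem_filter] at hz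
            have hwx := (mem_filter.1 (hJ hw)).2
            rcases hc with hc | hc
            · exact hz.2 (fo.trans _ _ _ hc hwx)
            · rcases fo.forest _ _ _ hc hwx with h | h
              · exact hz.2 h
              · exact (mem_filter.1 hi).2 z hz.1 h
          intro r hr r' hr' hrr
          rw [mem_union] at hr hr'
          rcases hr with hr | hr <;> rcases hr' with hr' | hr'
          · exact hanti i (hBS i hi).1 r (mem_filter.1 hr).1 r' (mem_filter.1 hr').1 hrr
          · exact hcross r hr r' hr'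
          · exact fun h => hcross r' hr' r hr h.symm
          · exact hJa r hr r' hr' hrr
        have h2 := hmax i (hBS i hi).1 _ (by
          intro z hz
          rw [mem_union] at hz
          rcases hz with hz | hz
          · exact hsub i (hBS i hi).1 (mem_filter.1 hz).1
          · exact (mem_filter.1 (hJ hz)).1) h1
        rw [card_union_of_disjoint hdisj] at h2
        have h3 := card_filter_add_card_filter_not (s := I i) (fun z => le (b z) (b x))
        omega)
      (fun i hi j hj hij => by
        intro z hz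
        rw [mem_filter] at hz
        have h1 := hnext i (hBS i hi).1 j (hBS j hj).1 hij hz.1
        rw [mem_sdiff] at h1
        rw [mem_sdiff, mem_filter, mem_filter]
        exact ⟨⟨h1.1, hz.2⟩, fun h => h1.2 h.1⟩)
    -- the other members
    have hA : ∀ i, ∃ z, i ∈ S → i ≠ s → i ∉ B → z ∈ I i ∧ le (b x) (b z) := by
      intro i
      by_cases h : i ∈ S ∧ i ≠ s ∧ i ∉ B
      · have h1 : ¬ ∀ y ∈ I i, ¬ le (b x) (b y) := by
          intro h2
          exact h.2.2 (mem_filter.2 ⟨mem_erase.2 ⟨h.2.1, h.1⟩, h2⟩)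
        push Not at h1
        obtain ⟨z, hz1, hz2⟩ := h1
        exact ⟨z, fun _ _ _ => ⟨hz1, hz2⟩⟩
      · exact ⟨x, fun h1 h2 h3 => absurd ⟨h1, h2, h3⟩ h⟩
    choose z hz using hA
    set w : ℕ → R := fun i => if i = s then x else if i ∈ B then y i else z i with hw
    have hws : w s = x := by simp [hw]
    have hwB : ∀ i ∈ B, w i = y i := by
      intro i hi
      have := (hBS i hi).2
      simp [hw, this, hi]
    have hwA : ∀ i, i ≠ s → i ∉ B → w i = z i := by
      intro i h1 h2
      simp [hw, h1, h2]
    refine ⟨w, ?_, ?_⟩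
    · intro i hi
      by_cases h1 : i = s
      · subst h1
        rw [hws]
        exact hx
      · by_cases h2 : i ∈ B
        · rw [hwB i h2]
          exact (mem_filter.1 (hy1 i h2)).1
        · rw [hwA i h1 h2]
          exact (hz i hi h1 h2).1
    · -- comparability with `x`
      have hbelow : ∀ i ∈ B, le (b (w i)) (b x) := by
        intro i hi
        rw [hwB i hi]
        exact (mem_filter.1 (hy1 i hi)).2
      have habove : ∀ i ∈ S, i ∉ B → le (b x) (b (w i)) := by
        intro i hi h2
        by_cases h1 : i = s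
        · subst h1
          rw [hws]
          exact fo.refl _
        · rw [hwA i h1 h2]
          exact (hz i hi h1 h2).2
      intro i hi j hj hij
      by_cases h1 : i ∈ B <;> by_cases h2 : j ∈ B
      · rw [hwB i h1, hwB j h2]
        exact hy2 i h1 j h2 hij
      · exact Or.inl (fo.trans _ _ _ (hbelow i h1) (habove j hj h2))
      · exact Or.inr (fo.trans _ _ _ (hbelow j h2) (habove i hi h1))
      · exact fo.forest _ _ _ (habove i hi h1) (habove j hj h2)

/-- The rounds in which all members of the colour class go up. -/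
theorem pure_bound (S : Sys le G e f) (hR : Rounds G k I F) {c : ℕ} (κ : G.Coloring (Fin c))
    (T : Finset ℕ) (hT : ∀ j ∈ T, j < k ∧ ∀ r ∈ I j, UU e f r) : T.card ≤ c := by
  rcases T.eq_empty_or_nonempty with rfl | ⟨j₀, hj₀⟩
  · simp
  have hne : Nonempty R := by
    obtain ⟨r, _⟩ := hR.ne j₀ (hT j₀ hj₀).1
    exact ⟨r⟩
  have hdisj : ∀ i j, i < j → j < k → ∀ r, r ∈ I i → r ∈ I j → False := by
    intro i j hij hj r hi hj'
    have := hR.later hij hj.le (hR.sub j hj hj')
    exact (mem_sdiff.1 this).2 hi
  obtain ⟨y, hy1, hy2⟩ := chain (le := le) hne S.fo (fun r => (f r).2) T.card T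
    (fun j => (F j).filter fun r => UU e f r) I rfl
    (fun i hi r hr => by
      rw [mem_filter]
      exact ⟨hR.sub i (hT i hi).1 hr, (hT i hi).2 r hr⟩)
    (fun i hi => hR.ne i (hT i hi).1)
    (fun i hi r hr r' hr' hne hc => by
      have h1 := hR.ind i (hT i hi).1 (mem_coe.2 hr) (mem_coe.2 hr') hne
      exact h1 ((S.uu_adj hne ((hT i hi).2 r hr) ((hT i hi).2 r' hr')).2 hc))
    (fun i hi J hJ hJa => by
      refine hR.mx i (hT i hi).1 J (fun r hr => (mem_filter.1 (hJ hr)).1) ?_
      intro r hr r' hr' hne hadj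
      exact hJa r (mem_coe.1 hr) r' (mem_coe.1 hr') hne
        ((S.uu_adj hne (mem_filter.1 (hJ (mem_coe.1 hr))).2
          (mem_filter.1 (hJ (mem_coe.1 hr'))).2).1 hadj))
    (fun i hi j hj hij r hr => by
      rw [mem_filter] at hr
      have h1 := hR.later hij (hT j hj).1.le hr.1
      rw [mem_sdiff] at h1 ⊢
      rw [mem_filter]
      exact ⟨⟨h1.1, hr.2⟩, h1.2⟩)
  refine card_le_of_clique κ T y fun i hi j hj hij => ?_
  have hyij : y i ≠ y j := by
    intro h
    rcases Nat.lt_or_gt_of_ne hij with h1 | h1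
    · exact hdisj i j h1 (hT j hj).1 (y i) (hy1 i hi) (h ▸ hy1 j hj)
    · exact hdisj j i h1 (hT i hi).1 (y j) (hy1 j hj) (h ▸ hy1 i hi)
  exact (S.uu_adj hyij ((hT i hi).2 _ (hy1 i hi)) ((hT j hj).2 _ (hy1 j hj))).2 (hy2 i hi j hj hij)

theorem ud_card (S : Sys le G e f) {J : Finset R} (hJ : G.IsIndepSet (J : Set R)) :
    (J.filter fun r => UD e f r).card ≤ 2 := by
  by_contra hcon
  push Not at hcon
  obtain ⟨a, ha, b, hb, c, hc, hab, hac, hbc⟩ := two_lt_card.1 hcon
  rw [mem_filter] at ha hb hc
  exact S.three_ud ha.2 hb.2 hc.2 hab hac hbc (hJ ha.1 hb.1 hab) (hJ ha.1 hc.1 hac)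
    (hJ hb.1 hc.1 hbc)

theorem uu_dd_card (S : Sys le G e f) {J : Finset R} (hJ : G.IsIndepSet (J : Set R)) :
    (J.filter fun r => UU e f r).card ≤ 1 ∨ (J.filter fun r => DD e f r).card ≤ 1 := by
  by_contra hcon
  push Not at hcon
  obtain ⟨p, hp, p', hp', hpp⟩ := one_lt_card.1 hcon.1
  obtain ⟨q, hq, q', hq', hqq⟩ := one_lt_card.1 hcon.2
  rw [mem_filter] at hp hp' hq hq'
  have hne : ∀ {p q : R}, UU e f p → DD e f q → p ≠ q := by
    rintro p q hp hq rfl
    have := hp.1
    rw [hq.1] at this
    exact absurd this (by decide)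
  exact S.two_two hp.2 hp'.2 hq.2 hq'.2 hpp hqq (hJ hp.1 hp'.1 hpp) (hJ hq.1 hq'.1 hqq)
    (hJ hp.1 hq.1 (hne hp.2 hq.2)) (hJ hp.1 hq'.1 (hne hp.2 hq'.2))
    (hJ hp'.1 hq.1 (hne hp'.2 hq.2)) (hJ hp'.1 hq'.1 (hne hp'.2 hq'.2))

theorem card_split (S : Sys le G e f) (J : Finset R) : J.card ≤
    (J.filter fun r => UU e f r).card + (J.filter fun r => DD e f r).card +
      (J.filter fun r => UD e f r).card := by
  refine le_trans (card_le_card ?_) ((card_union_le _ _).trans
    (Nat.add_le_add_right (card_union_le _ _) _))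
  intro r hr
  rw [mem_union, mem_union, mem_filter, mem_filter, mem_filter]
  rcases S.cases r with h | h | h
  · exact Or.inl (Or.inl ⟨hr, h⟩)
  · exact Or.inl (Or.inr ⟨hr, h⟩)
  · exact Or.inr ⟨hr, h⟩

/-- The rounds in which at least four members of the colour class go up, but not all. -/
theorem bonus_bound (S : Sys le G e f) (hR : Rounds G k I F) {c : ℕ} (κ : G.Coloring (Fin c))
    (T : Finset ℕ) (hT : ∀ j ∈ T, j < k ∧ 4 ≤ ((I j).filter fun r => UU e f r).card ∧
      ∃ q ∈ I j, ¬ UU e f q) : T.card ≤ 2 * c := by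
  rcases T.eq_empty_or_nonempty with rfl | ⟨j₀, hj₀⟩
  · simp
  obtain ⟨q₀, _⟩ := (hT j₀ hj₀).2.2
  have hex : ∀ j, ∃ q, j ∈ T → q ∈ I j ∧ ¬ UU e f q := by
    intro j
    by_cases h : j ∈ T
    · obtain ⟨q, hq⟩ := (hT j h).2.2
      exact ⟨q, fun _ => hq⟩
    · exact ⟨q₀, fun h' => absurd h' h⟩
  choose q hq using hex
  have hqdown : ∀ j ∈ T, (f (q j)).1 = false := by
    intro j hj
    rcases S.cases (q j) with h | h | h
    · exact absurd h (hq j hj).2
    · exact h.2
    · exact h.2
  -- the members that go up lie below the last arc of `q j`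
  have habove : ∀ j ∈ T, ∀ p ∈ (I j).filter (fun r => UU e f r), le (f p).2 (f (q j)).2 := by
    intro j hj p hp
    have h4 := (hT j hj).2.1
    obtain ⟨p', hp', hpp'⟩ := exists_mem_ne (by omega : 1 < ((I j).filter fun r => UU e f r).card) p
    rw [mem_filter] at hp hp'
    have hind := hR.ind j (hT j hj).1
    have hne : ∀ {p : R}, UU e f p → p ≠ q j := by
      rintro p hp rfl
      exact (hq j hj).2 hp
    exact S.above hp.2 hp'.2 (hqdown j hj) hpp'.symm (hind hp.1 hp'.1 hpp'.symm)
      (hind hp.1 (hq j hj).1 (hne hp.2)) (hind hp'.1 (hq j hj).1 (hne hp'.2))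
  have hcmp : ∀ i ∈ T, ∀ j ∈ T, i < j → Cmp le (f (q i)).2 (f (q j)).2 := by
    intro i hi j hj hij
    by_contra hn
    set P := (I i).filter fun r => UU e f r with hP
    set P' := (I j).filter fun r => UU e f r with hP'
    have hlater := hR.later hij (hT j hj).1.le
    have hdisj : Disjoint P P' := by
      rw [disjoint_left]
      intro r hr hr'
      have := hlater (hR.sub j (hT j hj).1 (mem_filter.1 hr').1)
      exact (mem_sdiff.1 this).2 (mem_filter.1 hr).1
    have hcross : ∀ p ∈ P, ∀ p' ∈ P', ¬ Cmp le (f p).2 (f p').2 := by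
      intro p hp p' hp' hc
      have h1 := habove i hi p hp
      have h2 := habove j hj p' hp'
      rcases hc with hc | hc
      · exact hn (S.fo.forest _ _ _ h1 (S.fo.trans _ _ _ hc h2))
      · exact hn (S.fo.forest _ _ _ (S.fo.trans _ _ _ hc h1) h2)
    have hind : G.IsIndepSet ((P ∪ P' : Finset R) : Set R) := by
      intro r hr r' hr' hne hadj
      rw [mem_coe, mem_union] at hr hr'
      rcases hr with hr | hr <;> rcases hr' with hr' | hr'
      · exact hR.ind i (hT i hi).1 (mem_filter.1 hr).1 (mem_filter.1 hr').1 hne hadj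
      · exact hcross r hr r' hr' ((S.uu_adj hne (mem_filter.1 hr).2 (mem_filter.1 hr').2).1 hadj)
      · exact hcross r' hr' r hr
          ((S.uu_adj hne.symm (mem_filter.1 hr').2 (mem_filter.1 hr).2).1 hadj.symm)
      · exact hR.ind j (hT j hj).1 (mem_filter.1 hr).1 (mem_filter.1 hr').1 hne hadj
    have h1 := hR.mx i (hT i hi).1 (P ∪ P') (by
      intro r hr
      rw [mem_union] at hr
      rcases hr with hr | hr
      · exact hR.sub i (hT i hi).1 (mem_filter.1 hr).1
      · exact (mem_sdiff.1 (hlater (hR.sub j (hT j hj).1 (mem_filter.1 hr).1))).1) hind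
    rw [card_union_of_disjoint hdisj] at h1
    have h2 := card_split S (I i)
    have h3 := ud_card S (hR.ind i (hT i hi).1)
    have h4 := uu_dd_card S (hR.ind i (hT i hi).1)
    have h5 := (hT i hi).2.1
    have h6 := (hT j hj).2.1
    rw [← hP] at h2 h4 h5
    rw [← hP'] at h6
    omega
  have hcmp' : ∀ i ∈ T, ∀ j ∈ T, i ≠ j → Cmp le (f (q i)).2 (f (q j)).2 := by
    intro i hi j hj hij
    rcases Nat.lt_or_gt_of_ne hij with h | h
    · exact hcmp i hi j hj h
    · exact (hcmp j hj i hi h).symm
  have hqne : ∀ i ∈ T, ∀ j ∈ T, i ≠ j → q i ≠ q j := by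
    intro i hi j hj hij h
    rcases Nat.lt_or_gt_of_ne hij with h1 | h1
    · have := hR.later h1 (hT j hj).1.le (hR.sub j (hT j hj).1 (hq j hj).1)
      exact (mem_sdiff.1 this).2 (h ▸ (hq i hi).1)
    · have := hR.later h1 (hT i hi).1.le (hR.sub i (hT i hi).1 (hq i hi).1)
      exact (mem_sdiff.1 this).2 (h ▸ (hq j hj).1)
  have hsplit := card_filter_add_card_filter_not (s := T) (fun j => DD e f (q j))
  have hD : (T.filter fun j => DD e f (q j)).card ≤ c := by
    refine card_le_of_clique κ _ q fun i hi j hj hij => ?_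
    rw [mem_filter] at hi hj
    rw [S.dd_adj (hqne i hi.1 j hj.1 hij) hi.2 hj.2]
    have h1 := S.dd hi.2
    have h2 := S.dd hj.2
    rcases hcmp' i hi.1 j hj.1 hij with h | h
    · exact S.fo.forest _ _ _ h1 (S.fo.trans _ _ _ h h2)
    · exact S.fo.forest _ _ _ (S.fo.trans _ _ _ h h1) h2
  have hU : (T.filter fun j => ¬ DD e f (q j)).card ≤ c := by
    have hud : ∀ j ∈ T.filter (fun j => ¬ DD e f (q j)), UD e f (q j) := by
      intro j hj
      rw [mem_filter] at hj
      rcases S.cases (q j) with h | h | h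
      · exact absurd h (hq j hj.1).2
      · exact absurd h hj.2
      · exact h
    refine card_le_of_clique κ _ q fun i hi j hj hij => ?_
    have hi' := (mem_filter.1 hi).1
    have hj' := (mem_filter.1 hj).1
    exact S.ud_adj (hqne i hi' j hj' hij) (hud i hi) (hud j hj) (hcmp' i hi' j hj' hij)
  omega

theorem UU_rev (r : R) : UU (fun r => rev (f r)) (fun r => rev (e r)) r ↔ DD e f r := by
  unfold UU DD rev
  simp
  tauto

/-- The number of rounds is at most twelve times the number of colours needed. -/
theorem rounds_le (S : Sys le G e f) (hR : Rounds G k I F) {c : ℕ} (κ : G.Coloring (Fin c)) :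
    k ≤ 12 * c := by
  set T₀ := (range k).filter (fun j => (I j).card ≤ 6) with hT₀
  set T₁ := (range k).filter (fun j => ∀ r ∈ I j, UU e f r) with hT₁
  set T₂ := (range k).filter (fun j => ∀ r ∈ I j, DD e f r) with hT₂
  set T₃ := (range k).filter (fun j => 4 ≤ ((I j).filter fun r => UU e f r).card ∧
      ∃ q ∈ I j, ¬ UU e f q) with hT₃
  set T₄ := (range k).filter (fun j => 4 ≤ ((I j).filter fun r => DD e f r).card ∧
      ∃ q ∈ I j, ¬ DD e f q) with hT₄
  have h0 : T₀.card ≤ 6 * c := small_bound hR κ _ (fun j hj => by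
    rw [hT₀, mem_filter, mem_range] at hj
    exact hj)
  have h1 : T₁.card ≤ c := pure_bound S hR κ _ (fun j hj => by
    rw [hT₁, mem_filter, mem_range] at hj
    exact hj)
  have h2 : T₂.card ≤ c := pure_bound S.reverse hR κ _ (fun j hj => by
    rw [hT₂, mem_filter, mem_range] at hj
    exact ⟨hj.1, fun r hr => (UU_rev r).2 (hj.2 r hr)⟩)
  have h3 : T₃.card ≤ 2 * c := bonus_bound S hR κ _ (fun j hj => by
    rw [hT₃, mem_filter, mem_range] at hj
    exact hj)
  have h4 : T₄.card ≤ 2 * c := bonus_bound S.reverse hR κ _ (fun j hj => by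
    rw [hT₄, mem_filter, mem_range] at hj
    simp only [UU_rev]
    exact hj)
  have hcover : range k ⊆ (((T₀ ∪ T₁) ∪ T₂) ∪ T₃) ∪ T₄ := by
    intro j hj
    have hjk := mem_range.1 hj
    by_cases g0 : (I j).card ≤ 6
    · exact mem_union_left _ (mem_union_left _ (mem_union_left _ (mem_union_left _
        (mem_filter.2 ⟨hj, g0⟩))))
    have g1 := card_split S (I j)
    have g2 := ud_card S (hR.ind j hjk)
    have g3 := uu_dd_card S (hR.ind j hjk)
    by_cases g4 : 4 ≤ ((I j).filter fun r => UU e f r).card
    · by_cases g5 : ∃ q ∈ I j, ¬ UU e f q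
      · exact mem_union_left _ (mem_union_right _ (mem_filter.2 ⟨hj, g4, g5⟩))
      · push Not at g5
        exact mem_union_left _ (mem_union_left _ (mem_union_left _ (mem_union_right _
          (mem_filter.2 ⟨hj, g5⟩))))
    · have g6 : 4 ≤ ((I j).filter fun r => DD e f r).card := by omega
      by_cases g5 : ∃ q ∈ I j, ¬ DD e f q
      · exact mem_union_right _ (mem_filter.2 ⟨hj, g6, g5⟩)
      · push Not at g5
        exact mem_union_left _ (mem_union_left _ (mem_union_right _
          (mem_filter.2 ⟨hj, g5⟩)))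
  have h5 := card_le_card hcover
  rw [card_range] at h5
  have h6 := card_union_le ((((T₀ ∪ T₁) ∪ T₂) ∪ T₃)) T₄
  have h7 := card_union_le (((T₀ ∪ T₁) ∪ T₂)) T₃
  have h8 := card_union_le ((T₀ ∪ T₁)) T₂
  have h9 := card_union_le T₀ T₁
  omega

end Pool.Agent.R551.IG
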