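import Pool.Agent.R551.IG.Greedy

/-!
# Requests in trees
-/

namespace Pool.Agent.R551.IG

open SimpleGraph

variable {V : Type} {T : SimpleGraph V}

theorem path_length (hT : T.IsTree) {u v : V} {p : T.Walk u v} (hp : p.IsPath) :
    p.length = T.dist u v := by
  obtain ⟨q, hq, hq'⟩ := (hT.connected u v).exists_path_of_dist
  have h := (hT.isAcyclic.subsingleton_path u v).elim ⟨p, hp⟩ ⟨q, hq⟩
  have h' : p = q := congrArg Subtype.val h
  rw [h', hq']

theorem parent_unique (hT : T.IsTree) {y y₁ y₂ z : V} (h₁ : T.Adj y y₁) (h₂ : T.Adj y y₂)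
    (e₁ : T.dist y₁ z + 1 = T.dist y z) (e₂ : T.dist y₂ z + 1 = T.dist y z) : y₁ = y₂ := by
  obtain ⟨W₁, hW₁⟩ := hT.connected.exists_walk_length_eq_dist y₁ z
  obtain ⟨W₂, hW₂⟩ := hT.connected.exists_walk_length_eq_dist y₂ z
  have p₁ : (Walk.cons h₁ W₁).IsPath := Walk.isPath_of_length_eq_dist _ (by
    rw [Walk.length_cons, hW₁, e₁])
  have p₂ : (Walk.cons h₂ W₂).IsPath := Walk.isPath_of_length_eq_dist _ (by
    rw [Walk.length_cons, hW₂, e₂])
  have h := (hT.isAcyclic.subsingleton_path y z).elim ⟨_, p₁⟩ ⟨_, p₂⟩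
  have h' : Walk.cons h₁ W₁ = Walk.cons h₂ W₂ := congrArg Subtype.val h
  have h'' := congrArg Walk.snd h'
  simpa using h''

theorem snd_dist (hT : T.IsTree) {u v : V} (huv : u ≠ v) {p : T.Walk u v} (hp : p.IsPath) :
    T.Adj u p.snd ∧ T.dist p.snd v + 1 = T.dist u v := by
  have hn : ¬ p.Nil := Walk.not_nil_of_ne huv
  refine ⟨p.adj_snd hn, ?_⟩
  have h1 := Walk.length_tail_add_one hn
  rw [path_length hT hp, path_length hT hp.tail] at h1
  exact h1

theorem snd_eq_iff (hT : T.IsTree) {u v w : V} (huv : u ≠ v) {p : T.Walk u v} (hp : p.IsPath)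
    (hw : T.Adj u w) : p.snd = w ↔ T.dist w v + 1 = T.dist u v := by
  obtain ⟨h1, h2⟩ := snd_dist hT huv hp
  constructor
  · rintro rfl
    exact h2
  · exact fun h => parent_unique hT h1 hw h2 h

theorem pen_dist (hT : T.IsTree) {u v : V} (huv : u ≠ v) {p : T.Walk u v} (hp : p.IsPath) :
    T.Adj p.penultimate v ∧ T.dist u p.penultimate + 1 = T.dist u v := by
  obtain ⟨h1, h2⟩ := snd_dist hT huv.symm hp.reverse
  rw [Walk.snd_reverse] at h1 h2
  refine ⟨h1.symm, ?_⟩
  rw [T.dist_comm (u := u) (v := p.penultimate), T.dist_comm (u := u) (v := v)]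
  exact h2

theorem pen_eq_iff (hT : T.IsTree) {u v w : V} (huv : u ≠ v) {p : T.Walk u v} (hp : p.IsPath)
    (hw : T.Adj w v) : p.penultimate = w ↔ T.dist u w + 1 = T.dist u v := by
  have h := snd_eq_iff hT huv.symm hp.reverse hw.symm
  rw [Walk.snd_reverse] at h
  rw [h, T.dist_comm (u := u) (v := w), T.dist_comm (u := u) (v := v)]

/-! ### The rooted order -/

/-- `y` lies on the path from `x` to the root `ρ`. -/
def tle (T : SimpleGraph V) (ρ x y : V) : Prop := T.dist x y + T.dist y ρ = T.dist x ρ

theorem far (hT : T.IsTree) (ρ z : V) (m : ℕ) : ∀ p x : V, T.dist p ρ = m → T.Adj p x →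
    T.dist z p = T.dist z x + 1 → T.dist x ρ = T.dist p ρ + 1 →
    T.dist z ρ = T.dist z p + T.dist p ρ := by
  induction m with
  | zero =>
    intro p x hp hadj h1 h2
    have : p = ρ := (hT.connected.dist_eq_zero_iff).1 hp
    subst this
    simp
  | succ m ih =>
    intro p x hp hadj h1 h2
    -- the parent of `p`
    have hne : p ≠ ρ := by
      rintro rfl
      rw [T.dist_self] at hp
      omega
    obtain ⟨w, hw, _⟩ := (hT.connected p ρ).exists_path_of_dist
    obtain ⟨g1, g2⟩ := snd_dist hT hne hw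
    set p₂ := w.snd with hp₂
    have hx : p₂ ≠ x := by
      rintro h
      rw [h] at g2
      omega
    have h3 : T.dist z p₂ = T.dist z p + 1 := by
      rcases hT.dist_eq_dist_add_one_of_adj z g1 with h | h
      · exfalso
        apply hx
        refine parent_unique hT g1 hadj (z := z) ?_ ?_
        · rw [T.dist_comm (u := p₂), T.dist_comm (u := p)]
          omega
        · rw [T.dist_comm (u := x), T.dist_comm (u := p)]
          omega
      · exact h
    have h4 := ih p₂ p (by omega) g1.symm h3 (by omega)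
    omega

theorem tle_iff (hT : T.IsTree) {ρ x p z : V} (hadj : T.Adj x p)
    (hp : T.dist p ρ + 1 = T.dist x ρ) : tle T ρ z x ↔ T.dist z p = T.dist z x + 1 := by
  unfold tle
  constructor
  · intro h
    have h1 := hT.connected.dist_triangle (u := z) (v := p) (w := ρ)
    rcases hT.dist_eq_dist_add_one_of_adj z hadj with h2 | h2
    · omega
    · exact h2
  · intro h
    have := far hT ρ z _ p x rfl hadj.symm h hp.symm
    omega

theorem not_tle_iff (hT : T.IsTree) {ρ x p z : V} (hadj : T.Adj x p)
    (hp : T.dist p ρ + 1 = T.dist x ρ) : ¬ tle T ρ z x ↔ T.dist z x = T.dist z p + 1 := by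
  rw [tle_iff hT hadj hp]
  rcases hT.dist_eq_dist_add_one_of_adj z hadj with h2 | h2 <;> omega

theorem tle_step (hT : T.IsTree) {ρ x x₁ y : V} (hadj : T.Adj x x₁)
    (hx : T.dist x₁ ρ + 1 = T.dist x ρ) (h : tle T ρ x y) (hne : x ≠ y) : tle T ρ x₁ y := by
  unfold tle at *
  obtain ⟨w, hw, _⟩ := (hT.connected x y).exists_path_of_dist
  obtain ⟨g1, g2⟩ := snd_dist hT hne hw
  have h1 := hT.connected.dist_triangle (u := w.snd) (v := y) (w := ρ)
  have h2 : T.dist w.snd ρ + 1 = T.dist x ρ := by
    rcases hT.dist_eq_dist_add_one_of_adj ρ g1 with h3 | h3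
    · rw [T.dist_comm (u := ρ), T.dist_comm (u := ρ)] at h3
      omega
    · rw [T.dist_comm (u := ρ), T.dist_comm (u := ρ)] at h3
      omega
  have h3 : w.snd = x₁ := parent_unique hT g1 hadj h2 hx
  rw [h3] at g2
  omega

theorem tle_forest (hT : T.IsTree) (ρ : V) : ForestOrder (tle T ρ) where
  refl a := by simp [tle]
  trans a b c h1 h2 := by
    unfold tle at *
    have h3 := hT.connected.dist_triangle (u := a) (v := b) (w := c)
    have h4 := hT.connected.dist_triangle (u := a) (v := c) (w := ρ)
    omega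
  forest := by
    have key : ∀ m : ℕ, ∀ a b c : V, T.dist a ρ = m → tle T ρ a b → tle T ρ a c →
        tle T ρ b c ∨ tle T ρ c b := by
      intro m
      induction m with
      | zero =>
        intro a b c hm h1 h2
        unfold tle at *
        have hb : b = ρ := (hT.connected.dist_eq_zero_iff).1 (by omega)
        have hc : c = ρ := (hT.connected.dist_eq_zero_iff).1 (by omega)
        subst hb
        subst hc
        left
        simp
      | succ m ih =>
        intro a b c hm h1 h2
        by_cases hab : a = b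
        · subst hab
          exact Or.inl h2
        by_cases hac : a = c
        · subst hac
          exact Or.inr h1
        have hne : a ≠ ρ := by
          rintro rfl
          rw [T.dist_self] at hm
          omega
        obtain ⟨w, hw, _⟩ := (hT.connected a ρ).exists_path_of_dist
        obtain ⟨g1, g2⟩ := snd_dist hT hne hw
        exact ih w.snd b c (by omega) (tle_step hT g1 g2 h1 hab) (tle_step hT g1 g2 h2 hac)
    exact fun a b c h1 h2 => key _ a b c rfl h1 h2

/-- The abstract arc of an arc `x → y`. -/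
noncomputable def arcOf (T : SimpleGraph V) (ρ x y : V) : Bool × V :=
  open Classical in if T.dist y ρ + 1 = T.dist x ρ then (true, x) else (false, y)

theorem arc_key (hT : T.IsTree) {ρ u a b t : V} (hua : T.Adj u a) (hbt : T.Adj b t) :
    (T.dist a t + 1 = T.dist u t ∧ T.dist u b + 1 = T.dist u t) ↔
      arcLe (tle T ρ) (arcOf T ρ u a) (arcOf T ρ b t) := by
  unfold arcOf
  have hD : ∀ {x y : V}, T.Adj x y → ¬ T.dist y ρ + 1 = T.dist x ρ →
      T.dist x ρ + 1 = T.dist y ρ := by
    intro x y hxy h
    rcases hT.dist_eq_dist_add_one_of_adj ρ hxy with h3 | h3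
    · rw [T.dist_comm (u := ρ), T.dist_comm (u := ρ)] at h3
      omega
    · rw [T.dist_comm (u := ρ), T.dist_comm (u := ρ)] at h3
      omega
  by_cases h1 : T.dist a ρ + 1 = T.dist u ρ
  · rw [if_pos h1]
    have e1 : (T.dist a t + 1 = T.dist u t) ↔ ¬ tle T ρ t u := by
      rw [not_tle_iff hT hua h1, T.dist_comm (u := t) (v := u), T.dist_comm (u := t) (v := a)]
      exact eq_comm
    by_cases h2 : T.dist t ρ + 1 = T.dist b ρ
    · rw [if_pos h2]
      have e2 : (T.dist u b + 1 = T.dist u t) ↔ tle T ρ u b := by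
        rw [tle_iff hT hbt h2]
        exact eq_comm
      rw [e1, e2]
      simp only [arcLe]
      constructor
      · exact fun h => h.2
      · intro h
        refine ⟨fun h3 => ?_, h⟩
        unfold tle at *
        omega
    · rw [if_neg h2]
      have h2' := hD hbt h2
      have e2 : (T.dist u b + 1 = T.dist u t) ↔ ¬ tle T ρ u t := by
        rw [not_tle_iff hT hbt.symm h2']
        exact eq_comm
      rw [e1, e2]
      simp only [arcLe, Cmp]
      tauto
  · rw [if_neg h1]
    have h1' := hD hua h1
    have e1 : (T.dist a t + 1 = T.dist u t) ↔ tle T ρ t a := by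
      rw [tle_iff hT hua.symm h1', T.dist_comm (u := t) (v := u), T.dist_comm (u := t) (v := a)]
      exact eq_comm
    by_cases h2 : T.dist t ρ + 1 = T.dist b ρ
    · rw [if_pos h2]
      have e2 : (T.dist u b + 1 = T.dist u t) ↔ tle T ρ u b := by
        rw [tle_iff hT hbt h2]
        exact eq_comm
      rw [e1, e2]
      simp only [arcLe, iff_false]
      rintro ⟨h3, h4⟩
      unfold tle at *
      omega
    · rw [if_neg h2]
      have h2' := hD hbt h2
      have e2 : (T.dist u b + 1 = T.dist u t) ↔ ¬ tle T ρ u t := by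
        rw [not_tle_iff hT hbt.symm h2']
        exact eq_comm
      rw [e1, e2]
      simp only [arcLe]
      constructor
      · exact fun h => h.1
      · intro h
        refine ⟨h, fun h3 => ?_⟩
        unfold tle at *
        omega

/-! ### Requests -/

/-- A family of requests in a tree, each with a start `s r` and an end `t r`. -/
structure Requests (V R : Type) where
  /-- first vertices -/
  s : R → V
  /-- last vertices -/
  t : R → V
  /-- every request has at least one arc -/
  ne : ∀ r, s r ≠ t r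

/-- The request `r` interferes on `r'`: the path from the start of `r` to the end of `r'` has the
first arc of the path of `r` as its first arc and the last arc of the path of `r'` as its last
arc. -/
def Interferes {R : Type} (T : SimpleGraph V) (Q : Requests V R) (r r' : R) : Prop :=
  ∃ (p : T.Walk (Q.s r) (Q.t r)) (p' : T.Walk (Q.s r') (Q.t r')) (w : T.Walk (Q.s r) (Q.t r')),
    p.IsPath ∧ p'.IsPath ∧ w.IsPath ∧ ¬ w.Nil ∧ w.snd = p.snd ∧ w.penultimate = p'.penultimate

/-- The interference graph. -/
def interferenceGraph {R : Type} (T : SimpleGraph V) (Q : Requests V R) : SimpleGraph R where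
  Adj r r' := r ≠ r' ∧ (Interferes T Q r r' ∨ Interferes T Q r' r)
  symm := ⟨fun _ _ h => ⟨h.1.symm, h.2.symm⟩⟩
  loopless := ⟨fun _ h => h.1 rfl⟩

theorem exists_path (hT : T.IsTree) (u v : V) : ∃ p : T.Walk u v, p.IsPath := by
  obtain ⟨p, hp, _⟩ := (hT.connected u v).exists_path_of_dist
  exact ⟨p, hp⟩

theorem path_eq (hT : T.IsTree) {u v : V} {p q : T.Walk u v} (hp : p.IsPath) (hq : q.IsPath) :
    p = q := by
  have h := (hT.isAcyclic.subsingleton_path u v).elim ⟨p, hp⟩ ⟨q, hq⟩
  exact congrArg Subtype.val h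

theorem exists_sys {R : Type} (hT : T.IsTree) (Q : Requests V R) (ρ : V) :
    ∃ e f : R → Bool × V, Sys (tle T ρ) (interferenceGraph T Q) e f := by
  choose p hp using fun r => exists_path hT (Q.s r) (Q.t r)
  have hint : ∀ r r', Interferes T Q r r' ↔ arcLe (tle T ρ) (arcOf T ρ (Q.s r) (p r).snd)
      (arcOf T ρ (p r').penultimate (Q.t r')) := by
    intro r r'
    obtain ⟨g1, _⟩ := snd_dist hT (Q.ne r) (hp r)
    obtain ⟨g2, _⟩ := pen_dist hT (Q.ne r') (hp r')
    rw [← arc_key hT g1 g2]
    constructor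
    · rintro ⟨q, q', w, hq, hq', hw, hn, h1, h2⟩
      have e1 := path_eq hT hq (hp r)
      have e2 := path_eq hT hq' (hp r')
      subst e1
      subst e2
      have hne : Q.s r ≠ Q.t r' := by
        intro h
        apply hn
        have hlen := path_length hT hw
        have h0 : T.dist (Q.s r) (Q.t r') = 0 := by rw [h, T.dist_self]
        rw [← Walk.length_eq_zero_iff, hlen, h0]
      exact ⟨(snd_eq_iff hT hne hw g1).1 h1, (pen_eq_iff hT hne hw g2).1 h2⟩
    · rintro ⟨h1, h2⟩
      have hne : Q.s r ≠ Q.t r' := by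
        intro h
        rw [← h, T.dist_self] at h1
        omega
      obtain ⟨w, hw⟩ := exists_path hT (Q.s r) (Q.t r')
      exact ⟨p r, p r', w, hp r, hp r', hw, Walk.not_nil_of_ne hne,
        (snd_eq_iff hT hne hw g1).2 h1, (pen_eq_iff hT hne hw g2).2 h2⟩
  refine ⟨fun r => arcOf T ρ (Q.s r) (p r).snd, fun r => arcOf T ρ (p r).penultimate (Q.t r),
    tle_forest hT ρ, fun r => ?_, fun r r' hne => ?_⟩
  · rw [← hint r r]
    exact ⟨p r, p r, p r, hp r, hp r, hp r, Walk.not_nil_of_ne (Q.ne r), rfl, rfl⟩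
  · rw [← hint r r', ← hint r' r]
    exact ⟨fun h => h.2, fun h => ⟨hne, h⟩⟩

end Pool.Agent.R551.IG
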